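import Mathlib
import Pool.Agent.Y670.HD.Upper

set_option autoImplicit false

namespace Pool.Agent.Results.MP_e296b6_lc.SpectraOfDimensionTwo

open Pool.Agent.Helper941.Dim Pool.Agent.Y670.HD

/-- The possible levels of autostability of structures of computable dimension two.

(1) For every structure `A` of computable dimension two there is a computable tree `T` of finite
sequences of natural numbers, with infinite paths but no computable one, such that for every
oracle `X`: `A` is `X`-autostable iff `X` computes an infinite path of `T`.

(2) Conversely every such tree `T` comes from a computable structure `A` of computable dimension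
two, as far as the oracles above `0''` are concerned: if `A` is `X`-autostable then `X` computes
an infinite path of `T`; if `X` computes `0''` then `A` is `X`-autostable iff `X` computes an
infinite path of `T`; if `X` is the only infinite path of `T` and computes `0''` then `A` is
`Y`-autostable exactly for the oracles `Y` computing `X`; for `n ≥ 3` the structure `A` is
`Δ⁰_n`-autostable iff `T` has a `Δ⁰_n` infinite path; and `A` is hyperarithmetically autostable
iff `T` has a hyperarithmetic infinite path.

(3) For every `n ≥ 3` there is a computable structure of computable dimension two which is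
`Δ⁰_{n+1}`-autostable but not `Δ⁰_n`-autostable.

(4) There is a computable structure of computable dimension two which is not even
hyperarithmetically autostable. -/
theorem result :
    (∀ A : Str, compDim A = 2 → ∃ T, GoodTree T ∧
      ∀ X, AutostableIn X A ↔ ∃ F, IsBranch T F ∧ CompIn X F) ∧
    (∀ T, GoodTree T → ∃ A : Str, IsComp A ∧ compDim A = 2 ∧
      (∀ X, AutostableIn X A → ∃ F, IsBranch T F ∧ CompIn X F) ∧
      (∀ X, AboveDoubleJump X → (AutostableIn X A ↔ ∃ F, IsBranch T F ∧ CompIn X F)) ∧
      (∀ X, IsBranch T X → (∀ F, IsBranch T F → F = X) → AboveDoubleJump X →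
        ∀ Y, AutostableIn Y A ↔ CompIn Y X) ∧
      (∀ n, 3 ≤ n → (DeltaAutostable n A ↔ ∃ F, IsBranch T F ∧ DeltaFun n F)) ∧
      (HypAutostable A ↔ ∃ F, IsBranch T F ∧ HypFun F)) ∧
    (∀ n, 3 ≤ n → ∃ A : Str, IsComp A ∧ compDim A = 2 ∧
      DeltaAutostable (n + 1) A ∧ ¬ DeltaAutostable n A) ∧
    ∃ A : Str, IsComp A ∧ compDim A = 2 ∧ ¬ HypAutostable A :=
  ⟨upper, main, levels, no_hyp_two⟩

end Pool.Agent.Results.MP_e296b6_lc.SpectraOfDimensionTwo
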